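import Pool.Agent.H248R2.OrthoFinal

set_option autoImplicit false

open Pool.Agent.H248R2.Ortho

/-- There is an orthostack whose edges form a connected set (so that no face has a hole) and which
has no edge unfolding. The example is the union of the four boxes [0,5]x[0,7]x[0,1],
[1,4]x[0,1]x[0,4], [2,3]x[0,4]x[0,4], [1,4]x[3,6]x[0,5]. -/
theorem Pool.Agent.Results.MP_306cd6_co.NoEdgeUnfolding.result :
    ∃ S : Set E3, IsOrthostack S ∧ IsConnected (skeleton S) ∧ ¬ HasEdgeUnfolding S :=
  ⟨body occ, S_eq ▸ orthostack, skeleton_connected, no_unfolding⟩
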